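import Pool.Agent.Y720.WC.C8

/-!
# Conic bundle surfaces with eight degenerate fibres: density in the real points and in the
`p`-adic points for all `p` in a finite set of primes (helper720)

`X : w² = F(x, y)`, where `F` has degree `2` in `x` and `4` in `y`, is a double cover of
`ℙ¹ × ℙ¹` branched along a curve of bidegree `(2, 4)`, so a rational surface over the algebraic
closure if the curve is smooth: a conic bundle over the `y`-line with eight degenerate fibres (given
by the discriminant of `F` with respect to `x`), and a family of curves of genus one over the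
`x`-line. At the primes `p ≥ 11` in a finite set `S`, we assume that `F ≡ a x² + b x + e + d y` modulo
`p`, where `a` is not a square and `d ≠ 0`, and that `p²` divides neither the coefficient of `x²y⁴` nor
a value of the coefficient of `y⁴` in `F`. Then the fibres of genus one have cuspidal reduction
(Kodaira type II), and the smooth projective surface has no `p`-adic points at infinity.

If `X` has a rational point whose coordinate `w` is a unit at the primes in `S`, then the rational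
points are dense in the product of the sets `X(ℚ_p)`, for `p` in `S`. If moreover the
image of the real points in the `y`-line is connected, they are dense in the product with `X(ℝ)`.
These surfaces exist for all `S`, and they are Zariski dense in the space of all `F`, with
an arbitrary behaviour modulo any number prime to `S`.

Idea of the proof. In the fibres of genus one, the difference of `(x, y, w)` and `(x, y, -w)` is a
topological generator of the product over `p ∈ S` of the groups of `p`-adic points, isomorphic to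
`ℤ_p`. The conics with a rational point satisfy weak approximation. So we can move in both directions;
it remains to control the residue classes at the `p ∈ S` and the components at the real
place, where a rational point in the closure of all multiples of a point of infinite order, in the
fibre of genus one, is used.
-/

set_option autoImplicit false

namespace Pool.Agent.Results.MP_83e36b_nt.ConicBundleDensity

open Pool.Agent.Y720.MZ

instance factPrime (p : Nat.Primes) : Fact (p : ℕ).Prime := ⟨p.2⟩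

/-- The value at `(x, y)` of the polynomial `F = ∑ c_ij x^i y^j` (`i ≤ 2`, `j ≤ 4`). -/
def value (c : Fin 3 → Fin 5 → ℤ) {R : Type*} [CommRing R] (x y : R) : R :=
  ∑ i, ∑ j, (c i j : R) * x ^ (i : ℕ) * y ^ (j : ℕ)

/-- The point `(x, y, w)` lies on the surface `w² = F(x, y)`. -/
def OnSurface (c : Fin 3 → Fin 5 → ℤ) {R : Type*} [CommRing R] (x y w : R) : Prop :=
  w ^ 2 = value c x y

/-- Modulo `p`, the function `F` is `a x² + b x + e + d y`, where `a` is not a square and `d` is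
not zero, and `p²` divides neither the coefficient of `x²y⁴` nor a value of the coefficient
`c₀₄ + c₁₄ x + c₂₄ x²` of `y⁴`. -/
def SpecialAt (c : Fin 3 → Fin 5 → ℤ) (p : ℕ) : Prop :=
  ∃ a b e d : ℤ, ¬ IsSquare (a : ZMod p) ∧ ¬ (p : ℤ) ∣ d ∧
    (∀ x y : ℤ, (p : ℤ) ∣ value c x y - (a * x ^ 2 + b * x + e + d * y)) ∧
    (∀ x : ℤ, ¬ (p : ℤ) ^ 2 ∣ c 0 4 + c 1 4 * x + c 2 4 * x ^ 2) ∧ ¬ (p : ℤ) ^ 2 ∣ c 2 4

lemma value_eq (c : Fin 3 → Fin 5 → ℤ) {R : Type*} [CommRing R] (x y : R) :
    value c x y = F4 (e35 c) x y := F2_eq c x y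

/-- **Conic bundle surfaces whose rational points are dense in the product of the real points and of
sets of `p`-adic points.** -/
theorem result :
    -- (1) density at `S`
    (∀ (c : Fin 3 → Fin 5 → ℤ) (S : Finset Nat.Primes),
      (∀ p ∈ S, 11 ≤ (p : ℕ) ∧ SpecialAt c p) →
      (∃ x y w : ℚ, OnSurface c x y w ∧ ∀ p ∈ S, ‖(w : ℚ_[p])‖ = 1) →
      ∀ X Y W : ∀ p : Nat.Primes, ℚ_[p], (∀ p ∈ S, OnSurface c (X p) (Y p) (W p)) →
        ∀ ε : ℝ, 0 < ε → ∃ x y w : ℚ, OnSurface c x y w ∧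
          ∀ p ∈ S, ‖(x : ℚ_[p]) - X p‖ < ε ∧ ‖(y : ℚ_[p]) - Y p‖ < ε ∧
            ‖(w : ℚ_[p]) - W p‖ < ε) ∧
    -- (2) density at `S` and at the real place
    (∀ (c : Fin 3 → Fin 5 → ℤ) (S : Finset Nat.Primes), S.Nonempty →
      (∀ p ∈ S, 11 ≤ (p : ℕ) ∧ SpecialAt c p) →
      (∃ x y w : ℚ, OnSurface c x y w ∧ ∀ p ∈ S, ‖(w : ℚ_[p])‖ = 1) →
      IsPreconnected {y : ℝ | ∃ x : ℝ, 0 < value c x y} →
      ∀ X Y W : ∀ p : Nat.Primes, ℚ_[p], (∀ p ∈ S, OnSurface c (X p) (Y p) (W p)) →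
        ∀ X' Y' W' : ℝ, OnSurface c X' Y' W' →
          (X', Y') ∈ closure {q : ℝ × ℝ | 0 < value c q.1 q.2} →
          ∀ ε : ℝ, 0 < ε → ∃ x y w : ℚ, OnSurface c x y w ∧
            (|(x : ℝ) - X'| < ε ∧ |(y : ℝ) - Y'| < ε ∧ |(w : ℝ) - W'| < ε) ∧
            ∀ p ∈ S, ‖(x : ℚ_[p]) - X p‖ < ε ∧ ‖(y : ℚ_[p]) - Y p‖ < ε ∧
              ‖(w : ℚ_[p]) - W p‖ < ε) ∧
    -- (3) existence: for all `S`, in all classes modulo integers `m` prime to `S` which contain
    -- a surface with a point `(1, 0, r)` modulo `m`, the surfaces which satisfy the conditions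
    -- of (1) and (2), with the rational point `(1, 0, w)`, are Zariski dense
    (∀ (S : Finset Nat.Primes) (m : ℕ) (c' : Fin 3 → Fin 5 → ℤ) (r : ℤ)
      (P : MvPolynomial (Fin 3 × Fin 5) ℂ), 0 < m → (∀ p ∈ S, 11 ≤ (p : ℕ) ∧ Nat.Coprime m p) →
      (m : ℤ) ∣ r ^ 2 - value c' 1 0 → P ≠ 0 →
      ∃ (c : Fin 3 → Fin 5 → ℤ) (w : ℤ), (∀ i j, (m : ℤ) ∣ c i j - c' i j) ∧
        (∀ p ∈ S, SpecialAt c p) ∧ OnSurface c 1 0 w ∧ (∀ p ∈ S, ¬ ((p : ℕ) : ℤ) ∣ w) ∧
        (∀ y : ℝ, ∃ x : ℝ, 0 < value c x y) ∧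
        MvPolynomial.eval (fun a => (c a.1 a.2 : ℂ)) P ≠ 0) := by
  have key : ∀ (c : Fin 3 → Fin 5 → ℤ) (S : Finset Nat.Primes),
      (∀ p ∈ S, 11 ≤ (p : ℕ) ∧ SpecialAt c p) → ∀ i : {p // p ∈ S},
      ∃ (a b e d : ℤ) (h : Fin 5 → Fin 5 → ℤ),
        G2 ((i.1 : Nat.Primes) : ℕ) (e35 c) h a b e d := by
    intro c S hS i
    obtain ⟨h11, a, b, e, d, h1, h2, h3, h4, h5⟩ := hS i.1 i.2
    obtain ⟨h, hh⟩ := G2.of_int (p := ((i.1 : Nat.Primes) : ℕ)) h11 h1 h2 h3 h4 h5
    exact ⟨a, b, e, d, h, hh⟩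
  refine ⟨?_, ?_, ?_⟩
  · intro c S hS hP X Y W hX ε hε
    obtain ⟨x₀, y₀, w₀, h0, hw⟩ := hP
    rcases isEmpty_or_nonempty {p // p ∈ S} with hE | hN
    · refine ⟨x₀, y₀, w₀, h0, fun p hp => (hE.false ⟨p, hp⟩).elim⟩
    · choose a b e d h H using key c S hS
      have hd := dense2 (K := ℚ) (ι := {p // p ∈ S}) (p := fun i => ((i.1 : Nat.Primes) : ℕ))
        (c := e35 c) (σ := fun i => Rat.castHom ℚ_[((i.1 : Nat.Primes) : ℕ)])
        (fun i j hij => Subtype.ext (Subtype.ext hij)) H (x₀ := x₀) (y₀ := y₀) (w₀ := w₀)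
        (by rw [← value_eq]; exact h0)
        (fun i => by simpa using hw i.1 i.2)
        (X := fun i => X i.1) (Y := fun i => Y i.1) (W := fun i => W i.1)
        (fun i => by rw [← value_eq]; exact hX i.1 i.2)
      obtain ⟨x, y, w, g1, g2⟩ := hd ε hε
      refine ⟨x, y, w, by rw [OnSurface, value_eq]; exact g1, fun p hp => ?_⟩
      simpa using g2 ⟨p, hp⟩
  · intro c S hSn hS hP hconn X Y W hX X' Y' W' hX' hcl ε hε
    obtain ⟨x₀, y₀, w₀, h0, hw⟩ := hP
    obtain ⟨p₀, hp₀⟩ := hSn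
    have : Nonempty {p // p ∈ S} := ⟨⟨p₀, hp₀⟩⟩
    choose a b e d h H using key c S hS
    -- a nearby real point with nonzero ordinate
    have hε2 : 0 < ε / 2 := by positivity
    obtain ⟨X₂, Y₂, W₂, m1, m2, m3, m4, m5⟩ : ∃ X₂ Y₂ W₂ : ℝ, W₂ ^ 2 = F4 (e35 c) X₂ Y₂ ∧
        W₂ ≠ 0 ∧ |X₂ - X'| < ε / 2 ∧ |Y₂ - Y'| < ε / 2 ∧ |W₂ - W'| < ε / 2 := by
      by_cases hW : W' = 0
      · have hc : Continuous fun q : ℝ × ℝ => value c q.1 q.2 := by
          unfold value; fun_prop
        have h1 : ∀ᶠ q in nhds (X', Y'), value c q.1 q.2 < (ε / 2) ^ 2 := by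
          apply hc.continuousAt.eventually_lt_const
          have : W' ^ 2 = value c X' Y' := hX'
          show value c X' Y' < (ε / 2) ^ 2
          rw [← this, hW, zero_pow two_ne_zero]
          positivity
        have h2 : ∀ᶠ q in nhds (X', Y'), dist q (X', Y') < ε / 2 :=
          Metric.ball_mem_nhds _ hε2
        obtain ⟨q, hq1, hq2, hq3⟩ := (mem_closure_iff_frequently.1 hcl).and_eventually
          (h1.and h2) |>.exists
        have hq1' : 0 < value c q.1 q.2 := hq1
        rw [Prod.dist_eq, max_lt_iff, Real.dist_eq, Real.dist_eq] at hq3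
        refine ⟨q.1, q.2, √(value c q.1 q.2), ?_, ?_, hq3.1, hq3.2, ?_⟩
        · rw [Real.sq_sqrt hq1'.le, value_eq]
        · exact (Real.sqrt_pos.2 hq1').ne'
        · rw [hW, sub_zero, abs_of_nonneg (Real.sqrt_nonneg _)]
          exact (Real.sqrt_lt' hε2).2 hq2
      · exact ⟨X', Y', W', by rw [← value_eq]; exact hX', hW, by simpa using hε2,
          by simpa using hε2, by simpa using hε2⟩
    obtain ⟨x, y, w, g1, g2, g3⟩ := dense2_real (K := ℚ) (ι := {p // p ∈ S})
      (p := fun i => ((i.1 : Nat.Primes) : ℕ))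
      (c := e35 c) (σ := fun i => Rat.castHom ℚ_[((i.1 : Nat.Primes) : ℕ)])
      (τ := Rat.castHom ℝ)
      (fun i j hij => Subtype.ext (Subtype.ext hij)) H (x₀ := x₀) (y₀ := y₀) (w₀ := w₀)
      (by rw [← value_eq]; exact h0)
      (fun i => by simpa using hw i.1 i.2)
      (by
        have e1 : {y : ℝ | ∃ x : ℝ, 0 < F4 (e35 c) x y} =
            {y : ℝ | ∃ x : ℝ, 0 < value c x y} := by
          ext y
          simp only [Set.mem_ofPred_eq, value_eq]
        rw [e1]
        exact hconn)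
      (X := fun i => X i.1) (Y := fun i => Y i.1) (W := fun i => W i.1)
      (fun i => by rw [← value_eq]; exact hX i.1 i.2) m1 m2 hε2
    refine ⟨x, y, w, by rw [OnSurface, value_eq]; exact g1, ⟨?_, ?_, ?_⟩, fun p hp => ?_⟩
    · have k1 : |(x : ℝ) - X₂| < ε / 2 := by simpa using g2.1
      have := abs_sub_le (x : ℝ) X₂ X'
      linarith
    · have k1 : |(y : ℝ) - Y₂| < ε / 2 := by simpa using g2.2.1
      have := abs_sub_le (y : ℝ) Y₂ Y'
      linarith
    · have k1 : |(w : ℝ) - W₂| < ε / 2 := by simpa using g2.2.2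
      have := abs_sub_le (w : ℝ) W₂ W'
      linarith
    · have k := g3 ⟨p, hp⟩
      have k1 : ‖(x : ℚ_[p]) - X p‖ < ε / 2 := by simpa using k.1
      have k2 : ‖(y : ℚ_[p]) - Y p‖ < ε / 2 := by simpa using k.2.1
      have k3 : ‖(w : ℚ_[p]) - W p‖ < ε / 2 := by simpa using k.2.2
      exact ⟨by linarith, by linarith, by linarith⟩
  · intro S m c' r P hm hS hr hP
    obtain ⟨c, w, h1, h2, h3, h4, h5, h6⟩ := exi2 S (fun p hp => (hS p hp).1) hm
      (fun p hp => (hS p hp).2) hr hP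
    refine ⟨c, w, h1, fun p hp => ?_, ?_, h4, fun y => ?_, h5⟩
    · have : Fact (p : ℕ).Prime := ⟨p.2⟩
      obtain ⟨ν, k1, k2⟩ := h2 p hp
      obtain ⟨e1, e2, e3⟩ := ex2_ok (hS p hp).1 k1 k2
      refine ⟨ν, 0, 1 - ν, 1, k1, ?_, e1, e2, e3⟩
      have hpp : Prime ((p : ℕ) : ℤ) := Nat.prime_iff_prime_int.1 p.2
      exact hpp.not_dvd_one
    · exact h3
    · -- the leading coefficient is positive
      set A : ℝ := c 2 0 + c 2 1 * y + c 2 2 * y ^ 2 + c 2 3 * y ^ 3 + c 2 4 * y ^ 4 with hA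
      have hApos : 0 < A := h6 y
      set B : ℝ := c 1 0 + c 1 1 * y + c 1 2 * y ^ 2 + c 1 3 * y ^ 3 + c 1 4 * y ^ 4 with hB
      set C : ℝ := c 0 0 + c 0 1 * y + c 0 2 * y ^ 2 + c 0 3 * y ^ 3 + c 0 4 * y ^ 4 with hC
      have e : ∀ x : ℝ, value c x y = C + B * x + A * x ^ 2 := by
        intro x
        simp only [value, Fin.sum_univ_three, Fin.sum_univ_five, hA, hB, hC]
        norm_num
        ring
      refine ⟨(|B| + |C| + 1) / A + 1, ?_⟩
      rw [e]
      have hx : 0 < (|B| + |C| + 1) / A := by positivity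
      set x := (|B| + |C| + 1) / A + 1 with hxd
      have hx1 : 1 ≤ x := by linarith
      have hAx : |B| + |C| + 1 ≤ A * x := by
        rw [hxd, mul_add, mul_div_cancel₀ _ hApos.ne']
        linarith
      have h7 : (|B| + |C| + 1) * x ≤ A * x ^ 2 := by nlinarith
      have h8 : -(|B| * x) ≤ B * x := by nlinarith [neg_abs_le B]
      have h9 : -(|C| * x) ≤ C := by nlinarith [neg_abs_le C, abs_nonneg C]
      nlinarith

end Pool.Agent.Results.MP_83e36b_nt.ConicBundleDensity
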