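import Pool.Agent.Y718.SA5

/-!
# Weak approximation near the rational points of double covers branched along quartics

Let `F` be a form of degree `4` over `ℚ` in `n + 1 ≥ 3` variables, such that the hypersurface
`F = 0` is smooth. The variety `w² = F(Z)` in the weighted projective space `ℙ(2, 1, …, 1)` is the
double cover of `ℙⁿ` branched along this quartic: a del Pezzo surface of degree `2` for `n = 2`, a
quartic double solid for `n = 3`, a Fano variety for all `n ≥ 2`. In particular it is rationally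
connected. By the conjecture of Colliot-Thélène all rational points are interior points of the
closure of the set of rational points in the product of the sets of points over the completions
in a finite set of places: the elements of the Brauer group of a rationally connected variety are
constant close to a point.

(1) This holds for all rational points with `w ≠ 0`, except for the rational points above a finite
set of points of `ℙⁿ`: for each finite set of prime numbers `p₁, …, p_m` and the real place, each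
system of a real point and of `p_i`-adic points of the cone `w² = F(Z)` which are close to the given
rational point is a limit of rational points of the cone.

(2) A criterion for all polynomials `f` of degree at most `4` in `n` variables, without a condition
on the singularities, and for all `n`: the rational point `(w, z)` of `w² = f(z)`, `w ≠ 0`, has the
same property, if there is a basis `b₁, …, b_n` of `ℚⁿ`, such that for each `k` the polynomial `f` is
of degree at most `2` on the lines of direction `b_k`, or the curve `s² = f(z + t b_k)`, with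
nonsingular Jacobian `y² = x³ + q₂ x² + (q₁ q₃ - 4 q₀ q₄) x + q₁² q₄ + q₀ q₃² - 4 q₀ q₂ q₄`, has the
property that the difference of its two points `(0, w), (0, -w)`, that is, the point with the
coordinates `x = q₁² / (4 w²) - q₂`, `y = (q₁ x + 2 w² q₃) / (2 w)`, has infinite order.
-/

set_option autoImplicit false

namespace Pool.Agent.Results.MP_83e36b_nt.QuarticDoubleCovers

open MvPolynomial Pool.Agent.Y718.X

/-- The rational point `(w, z)` of the affine variety `w² = f(z)` is an interior point of the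
closure of the set of the rational points in the product of the sets of real points and of
`p i`-adic points, for all finite families of different prime numbers `p i`. -/
def WeakApproximationNear {n : ℕ} (f : MvPolynomial (Fin n) ℚ) (w : ℚ) (z : Fin n → ℚ) : Prop :=
  ∀ (m : ℕ) (p : Fin m → ℕ) [∀ i, Fact (p i).Prime], Function.Injective p →
    ∃ ε : ℝ, 0 < ε ∧
      ∀ (y : ℝ) (x : Fin n → ℝ) (y' : ∀ i, ℚ_[p i]) (x' : ∀ i, Fin n → ℚ_[p i]),
        y ^ 2 = aeval x f → (∀ i, y' i ^ 2 = aeval (x' i) f) →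
        (|y - w| < ε ∧ ∀ j, |x j - z j| < ε) →
        (∀ i, ‖y' i - w‖ < ε ∧ ∀ j, ‖x' i j - z j‖ < ε) →
        ∀ η : ℝ, 0 < η → ∃ (w₁ : ℚ) (z₁ : Fin n → ℚ), w₁ ^ 2 = eval z₁ f ∧
          (|w₁ - y| < η ∧ ∀ j, |z₁ j - x j| < η) ∧
          ∀ i, ‖w₁ - y' i‖ < η ∧ ∀ j, ‖z₁ j - x' i j‖ < η

/-- The polynomial `f(z + t v)` in `t`. -/
noncomputable def restriction {n : ℕ} (f : MvPolynomial (Fin n) ℚ) (z v : Fin n → ℚ) :
    Polynomial ℚ :=
  aeval (fun k => Polynomial.C (z k) + Polynomial.C (v k) * Polynomial.X) f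

/-- The Jacobian of the curve `s² = q(t)`, where `q` is a polynomial of degree at most `4`. -/
def jacobian (q : Polynomial ℚ) : WeierstrassCurve ℚ where
  a₁ := 0
  a₂ := q.coeff 2
  a₃ := 0
  a₄ := q.coeff 1 * q.coeff 3 - 4 * q.coeff 0 * q.coeff 4
  a₆ := q.coeff 1 ^ 2 * q.coeff 4 + q.coeff 0 * q.coeff 3 ^ 2 -
    4 * q.coeff 0 * q.coeff 2 * q.coeff 4

/-- The Jacobian is nonsingular, `q(0) = w²` for a rational number `w ≠ 0`, and the difference of
the two points `(0, w)` and `(0, -w)` has infinite order. -/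
def InfiniteOrder (q : Polynomial ℚ) : Prop :=
  (jacobian q).Δ ≠ 0 ∧ ∃ (w x y : ℚ) (h : (jacobian q).toAffine.Nonsingular x y),
    w ≠ 0 ∧ w ^ 2 = q.coeff 0 ∧ x = q.coeff 1 ^ 2 / (4 * w ^ 2) - q.coeff 2 ∧
    y = (q.coeff 1 * x + 2 * w ^ 2 * q.coeff 3) / (2 * w) ∧
    ∀ m : ℕ, m ≠ 0 → m • WeierstrassCurve.Affine.Point.some x y h ≠ 0

lemma near_of_int {n : ℕ} {f : MvPolynomial (Fin n) ℚ} {w : ℚ} {z : Fin n → ℚ}
    (hw : w ^ 2 = eval z f)
    (h : ∀ {ι : Type} [Finite ι] [Nonempty ι] {p : ι → ℕ} [∀ i, Fact (p i).Prime]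
      (_ : Function.Injective p) (σ : ∀ i, ℚ →+* ℚ_[p i]) (τ : ℚ →+* ℝ),
      Pool.Agent.Y720.MZ.Int (Pool.Agent.Y720.MZ.sv σ τ) f z w) :
    WeakApproximationNear f w z := by
  have hr : ∀ x : Fin n → ℝ, (aeval x f : ℝ) = eval x (map (Rat.castHom ℝ) f) := by
    intro x
    rw [eval_map, aeval_def]
    rfl
  have hpr : ∀ (q : ℕ) [Fact q.Prime] (x : Fin n → ℚ_[q]), (aeval x f : ℚ_[q]) =
      eval x (map (Rat.castHom ℚ_[q]) f) := by
    intro q _ x
    rw [eval_map, aeval_def]
    rfl
  have main : ∀ (m : ℕ) (p : Fin (m + 1) → ℕ) [∀ i, Fact (p i).Prime], Function.Injective p →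
      ∃ ε : ℝ, 0 < ε ∧
        ∀ (y : ℝ) (x : Fin n → ℝ) (y' : ∀ i, ℚ_[p i]) (x' : ∀ i, Fin n → ℚ_[p i]),
          y ^ 2 = aeval x f → (∀ i, y' i ^ 2 = aeval (x' i) f) →
          (|y - w| < ε ∧ ∀ j, |x j - z j| < ε) →
          (∀ i, ‖y' i - w‖ < ε ∧ ∀ j, ‖x' i j - z j‖ < ε) →
          ∀ η : ℝ, 0 < η → ∃ (w₁ : ℚ) (z₁ : Fin n → ℚ), w₁ ^ 2 = eval z₁ f ∧
            (|w₁ - y| < η ∧ ∀ j, |z₁ j - x j| < η) ∧
            ∀ i, ‖w₁ - y' i‖ < η ∧ ∀ j, ‖z₁ j - x' i j‖ < η := by
    intro m p _ hp
    obtain ⟨ε, hε, hh⟩ := h hp (fun i => Rat.castHom ℚ_[p i]) (Rat.castHom ℝ)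
    refine ⟨ε, hε, fun y x y' x' hy hy' hn hn' η hη => ?_⟩
    obtain ⟨z₁, w₁, h1, h2⟩ := hh (fun v => match v with
      | none => x
      | some i => x' i) (fun v => match v with
      | none => y
      | some i => y' i) (by
        rintro (_ | i)
        · exact hy.trans (hr x)
        · exact (hy' i).trans (hpr _ _)) (by
        rintro (_ | i)
        · refine ⟨fun a => ?_, ?_⟩
          · have := hn.2 a
            rw [abs_sub_comm] at this
            exact this
          · have := hn.1
            rw [abs_sub_comm] at this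
            exact this
        · refine ⟨fun a => ?_, ?_⟩
          · have := (hn' i).2 a
            rw [norm_sub_rev] at this
            exact this
          · have := (hn' i).1
            rw [norm_sub_rev] at this
            exact this) η hη
    exact ⟨w₁, z₁, h1, ⟨(h2 none).2, (h2 none).1⟩, fun i => ⟨(h2 (some i)).2, (h2 (some i)).1⟩⟩
  intro m p _ hp
  rcases m with _ | m
  · have : Fact (Nat.Prime 2) := ⟨Nat.prime_two⟩
    obtain ⟨ε, hε, hh⟩ := main 0 (fun _ => 2) (fun i j _ => by omega)
    refine ⟨ε, hε, fun y x y' x' hy hy' hn hn' η hη => ?_⟩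
    obtain ⟨w₁, z₁, h1, h2, -⟩ := hh y x (fun _ => w) (fun _ j => z j) hy (fun i => by
      rw [hpr]
      have e : (fun j => ((z j : ℚ) : ℚ_[2])) = fun j => Rat.castHom ℚ_[2] (z j) := rfl
      have e2 : eval (fun j => Rat.castHom ℚ_[2] (z j)) (map (Rat.castHom ℚ_[2]) f) =
          Rat.castHom ℚ_[2] (eval z f) := by
        rw [eval_map, ← eval₂_id, eval₂_comp_left, RingHom.comp_id]
        rfl
      rw [e, e2, ← hw]
      simp) hn (fun i => ⟨by simpa using hε, fun j => by simpa using hε⟩) η hη
    exact ⟨w₁, z₁, h1, h2, fun i => i.elim0⟩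
  · exact main m p hp

/-- **Weak approximation near rational points of double covers branched along quartics.** -/
theorem result :
    -- (1) smooth quartics
    (∀ (n : ℕ) (F : MvPolynomial (Fin (n + 1)) ℚ), 2 ≤ n → F.IsHomogeneous 4 →
      (∀ y : Fin (n + 1) → ℂ, (∀ i, aeval y (pderiv i F) = 0) → y = 0) →
      ∃ T : Finset (Fin (n + 1) → ℚ), ∀ (w : ℚ) (Z : Fin (n + 1) → ℚ), w ≠ 0 →
        w ^ 2 = eval Z F → (∀ t ∈ T, ∀ c : ℚ, Z ≠ c • t) → WeakApproximationNear F w Z) ∧
    -- (2) a criterion for all quartics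
    (∀ (n : ℕ) (f : MvPolynomial (Fin n) ℚ) (w : ℚ) (z : Fin n → ℚ) (b : Fin n → Fin n → ℚ),
      f.totalDegree ≤ 4 → w ≠ 0 → w ^ 2 = eval z f → LinearIndependent ℚ b →
      (∀ k, (∀ y : Fin n → ℚ, (restriction f y (b k)).natDegree ≤ 2) ∨
        InfiniteOrder (restriction f z (b k))) →
      WeakApproximationNear f w z) := by
  refine ⟨fun n F hn hF hsm => ?_, fun n f w z b hf hw hwz hb h => ?_⟩
  · obtain ⟨T, hT, h⟩ := smooth_int hF (Pool.Agent.Y718.smooth_of hsm) hn
    refine ⟨hT.toFinset, fun w Z hw hwZ hZT => near_of_int hwZ ?_⟩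
    intro ι _ _ p _ hp σ τ
    exact h Z w hw hwZ (fun t ht c => hZT t (hT.mem_toFinset.mpr ht) c) hp σ τ
  · refine near_of_int hwz ?_
    intro ι _ _ p _ hp σ τ
    refine int_dirs hp σ τ hb (fun k => ?_) hw hwz
    rcases h k with h1 | h1
    · exact Or.inl h1
    · refine Or.inr ⟨fun y => ?_, (infO_iff _).mp h1⟩
      exact (Pool.Agent.Y718.SF.lg_natDegree f y (b k)).trans hf

end Pool.Agent.Results.MP_83e36b_nt.QuarticDoubleCovers
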