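import Pool.Agent.Y716.M.WAMain

/-!
# Weak approximation for 100% of the rationally connected hypersurfaces in products of projective
spaces over the rational numbers

Let `k ≥ 1`, `n i ≥ 1`, `d i ≥ 2` (`i < k`) with `d i ≤ n i` for at least one `i`, i.e. the smooth
hypersurfaces of multidegree `(d 0, d 1, …)` in `ℙ^(n 0) × ℙ^(n 1) × …` are rationally connected,
and suppose that they have dimension at least two. Among the hypersurfaces `f = 0` of this
multidegree which have points over the real numbers and over all the `p`-adic fields, `f` running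
over the integral multihomogeneous forms with coefficients bounded by `H`, a proportion tending to
`1` as `H → ∞` satisfies weak approximation to precision `1 / m(H)` at the real place and at all the
primes up to `m(H)`, where `m(H) → ∞`.
-/

set_option autoImplicit false

namespace Pool.Agent.Results.MP_83e36b_nt.RandomProductsWeakApproximation

/-- The forms of multidegree `d` in `k` blocks of variables, the block `i` having `n i + 1`
variables, whose coefficients are integers of absolute value at most `H`. -/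
def Forms {k : ℕ} (n d : Fin k → ℕ) (H : ℕ) :
    Set (MvPolynomial (Σ i : Fin k, Fin (n i + 1)) ℤ) :=
  {f | (∀ s ∈ f.support, ∀ i : Fin k, ∑ j : Fin (n i + 1), s ⟨i, j⟩ = d i) ∧
    ∀ s, |f.coeff s| ≤ (H : ℤ)}

/-- The block `i` of a vector: homogeneous coordinates of its component in `ℙ^(n i)`. -/
def block {k : ℕ} {n : Fin k → ℕ} {K : Type} (x : (Σ i : Fin k, Fin (n i + 1)) → K)
    (i : Fin k) : Fin (n i + 1) → K := fun j => x ⟨i, j⟩

/-- `x` represents a point over the field `K` of the hypersurface `f = 0` in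
`ℙ^(n 0) × ℙ^(n 1) × …`: all its blocks are different from zero and `f(x) = 0`. -/
def IsPoint {k : ℕ} {n : Fin k → ℕ} {K : Type} [Field K]
    (f : MvPolynomial (Σ i : Fin k, Fin (n i + 1)) ℤ)
    (x : (Σ i : Fin k, Fin (n i + 1)) → K) : Prop :=
  (∀ i : Fin k, block x i ≠ 0) ∧ MvPolynomial.aeval x f = 0

/-- The hypersurface `f = 0` has points over the real numbers and over all the `p`-adic fields. -/
def LocallySoluble {k : ℕ} {n : Fin k → ℕ}
    (f : MvPolynomial (Σ i : Fin k, Fin (n i + 1)) ℤ) : Prop :=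
  (∃ y : (Σ i : Fin k, Fin (n i + 1)) → ℝ, IsPoint f y) ∧
    ∀ (p : ℕ) [Fact p.Prime], ∃ z : (Σ i : Fin k, Fin (n i + 1)) → ℚ_[p], IsPoint f z

/-- Weak approximation for the hypersurface `f = 0` in `ℙ^(n 0) × ℙ^(n 1) × …`, to precision
`1 / m` at the real place and at the primes up to `m`: for all real points `y` and `p`-adic points
`z p` of the hypersurface, one for each prime `p`, there is a rational point `x` of the hypersurface
such that in each factor `ℙ^(n i)`, after multiplying the homogeneous coordinates of `x` by a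
nonzero number of the completion, they differ from those of `y` by at most `‖y‖ / m` and from those
of `z p`, `p ≤ m`, by at most `‖z p‖ / m` (`‖·‖` is the largest absolute value of the homogeneous
coordinates in this factor). -/
def WeakApproximation (m : ℕ) {k : ℕ} {n : Fin k → ℕ}
    (f : MvPolynomial (Σ i : Fin k, Fin (n i + 1)) ℤ) : Prop :=
  ∀ (z : ∀ (p : ℕ) [Fact p.Prime], (Σ i : Fin k, Fin (n i + 1)) → ℚ_[p])
    (y : (Σ i : Fin k, Fin (n i + 1)) → ℝ),
    (∀ (p : ℕ) [Fact p.Prime], IsPoint f (z p)) → IsPoint f y →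
    ∃ x : (Σ i : Fin k, Fin (n i + 1)) → ℚ, IsPoint f x ∧
      (∀ (p : ℕ) [Fact p.Prime], p ≤ m → ∀ i : Fin k, ∃ c : ℚ_[p], c ≠ 0 ∧
        ∀ j : Fin (n i + 1), ‖z p ⟨i, j⟩ - c * (x ⟨i, j⟩ : ℚ_[p])‖ ≤ ‖block (z p) i‖ / m) ∧
      ∀ i : Fin k, ∃ c : ℝ, c ≠ 0 ∧
        ∀ j : Fin (n i + 1), |y ⟨i, j⟩ - c * (x ⟨i, j⟩ : ℝ)| ≤ ‖block y i‖ / m

/-- For every rationally connected multidegree `d` with all `d i ≥ 2`, in dimension at least two,
there is a function `m` tending to infinity such that 100% of the everywhere locally soluble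
hypersurfaces of multidegree `d` of height at most `H` in the product of projective spaces over
`ℚ` satisfy weak approximation to precision `1 / m(H)` at the real place and at the primes up to
`m(H)`. -/
theorem result (k : ℕ) (n d : Fin k → ℕ) (hn : ∀ i, 1 ≤ n i) (hd : ∀ i, 2 ≤ d i)
    (hrc : ∃ i, d i ≤ n i) (hdim : 3 ≤ ∑ i, n i) :
    ∃ m : ℕ → ℕ, Filter.Tendsto m Filter.atTop Filter.atTop ∧
      Filter.Tendsto (fun H : ℕ =>
        (({f | f ∈ Forms n d H ∧ LocallySoluble f ∧ WeakApproximation (m H) f} : Set _).ncard : ℝ) /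
        (({f | f ∈ Forms n d H ∧ LocallySoluble f} : Set _).ncard : ℝ))
      Filter.atTop (nhds 1) := by
  obtain ⟨m, hm, h⟩ := Pool.Agent.Y716.M.wa_all k n d hn hd hrc hdim
  refine ⟨m, hm, h.congr (fun H => ?_)⟩
  have hw : ∀ (q : ℕ) (f : MvPolynomial (Σ i : Fin k, Fin (n i + 1)) ℤ),
      Pool.Agent.Y716.M.WeakApproxM q f ↔ WeakApproximation q f := by
    intro q f
    unfold Pool.Agent.Y716.M.WeakApproxM WeakApproximation IsPoint
    constructor
    · intro h1 z y hz hy
      obtain ⟨x, hx1, hx2, hx3, hx4⟩ := h1 z y hz hy.1 hy.2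
      exact ⟨x, ⟨hx1, hx2⟩, hx3, hx4⟩
    · intro h1 z y hz hy1 hy2
      obtain ⟨x, ⟨hx1, hx2⟩, hx3, hx4⟩ := h1 z y hz ⟨hy1, hy2⟩
      exact ⟨x, hx1, hx2, hx3, hx4⟩
  have he : ∀ f : MvPolynomial (Σ i : Fin k, Fin (n i + 1)) ℤ,
      Pool.Agent.Y716.M.ElsB f ↔ LocallySoluble f := fun f => Iff.rfl
  congr 2
  · congr 1
    ext f
    simp only [Set.mem_setOf_eq, Forms, hw, he]

end Pool.Agent.Results.MP_83e36b_nt.RandomProductsWeakApproximation
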