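import Pool.Agent.Y714.RC.F3

/-! # Weak approximation with probability one for fibrations given by several shifted polynomials

Let `f_1, …, f_s` be any nonconstant integral polynomials in one variable `t`, let `a_1, …, a_r` be integers which are
independent modulo squares, let `c_1, …, c_r` be nonzero integers and let `E_1, …, E_r` be any nonempty subsets of `{1, …, s}`.
For `k` in `ℤ^s` let `V_k` be the variety of dimension `r + 1`

`y_i² - a_i z_i² = c_i ∏_{j ∈ E_i} (f_j(t) + k_j)`, `i = 1, …, r`, with all the `f_j(t) + k_j` different from `0`.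

Its smooth proper models `X_k` are rationally connected, as they are fibred over the projective line into products of conics;
there are arbitrarily many degenerate fibres, over points of arbitrary degree, and `Br X_k / Br ℚ` is not trivial in general: if,
for example, some `E_i` has at least two elements and the `f_j` have even degree then the classes `(a_i, f_j(t) + k_j)`, `j` in
`E_i`, are unramified. Only the constant terms of the polynomials vary.

We show: for 100% of the `k` with `|k_j| ≤ B X^{deg f_j}`, `X → ∞`, the following holds. Let `T` be a finite set of primes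
containing `2`, the primes up to `∑ deg f_j` and those dividing the leading coefficients of the `f_j` or some `a_i c_i`. Then
all families of points of `V_k` over the `ℚ_p`, `p` in `T`, and over `ℝ` (not too large and not too close to the degenerate
fibres, `N` and `B` fixed before `k`) can be approximated by rational points of `V_k`, in all coordinates, at the primes of `T`
and at the real place; at the real place sizes and distances are measured at the natural scale `t ~ X`,
`y_i, z_i ~ X^{(1/2) ∑_{j ∈ E_i} deg f_j}`.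
So for 100% of the `k` no Brauer class obstructs approximation at the places of `T` and at the real place, although the Brauer
group is not trivial in general, and there is no further obstruction.

Proof. (i) If the invariants of all the classes `(a_i, f_j(t) + k_j)`, `j` in `E_i`, add up to `0` over the places of `T` and the
real place, then one looks for `t` near the given points such that all the `f_j(t) + k_j` are, up to units at the primes outside
`T`, prime numbers `l_j`: by reciprocity all `(a_i, f_j(t) + k_j)` are trivial at `l_j`, and the conics have rational points by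
the Hasse-Minkowski theorem. For all but `∏ X^{deg f_j} / (log X)^U` of the `k` there is such a `t`: this follows from an
estimate, for almost all `k`, for `∑_n ∏_j Λ(f_j(n) + k_j)` against a sieve model, by a bilinear (large sieve and Vinogradov
type) argument in `k`, extended here to shifts which are not near zero and to any number of polynomials, with signs and
`n` in a short end piece of the interval.
(ii) In general one uses auxiliary primes `q` outside `T`, inert in `ℚ(√a_i)` and split in the other `ℚ(√a_{i'})`, such that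
`q` divides `f_α(t) + k_α` and `f_β(t) + k_β` exactly once for the same `t` and the other `f_j(t) + k_j` are units; at such a
`q` there are local points which change the invariants of `(a_i, f_α(t) + k_α)` and `(a_i, f_β(t) + k_β)` only. For each `q`
the proportion of the `k` with this property is at least `const / q`, the events are independent, and the sum of `1 / q` over
the primes with these splitting conditions diverges; hence 100% of the `k` have such a `q` for all `i, α, β`. As the
invariants of one row `i` add up to `0`, this reduces to (i).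
(iii) The fibre over the point `t` found satisfies weak approximation, as it is a product of conics with rational points.
-/

set_option autoImplicit false

namespace Pool.Agent.Results.MP_83e36b_nt.SeveralShifts

open Finset Polynomial Filter Topology

instance (p : Nat.Primes) : Fact (p : ℕ).Prime := ⟨p.2⟩

/-- all `k` in `ℤ^s` with `|k_j| ≤ B X ^ deg f_j` -/
noncomputable def box {s : ℕ} (f : Fin s → ℤ[X]) (B X : ℕ) : Finset (Fin s → ℤ) :=
  Fintype.piFinset fun j => Icc (-((B * X ^ (f j).natDegree : ℕ) : ℤ)) ((B * X ^ (f j).natDegree : ℕ) : ℤ)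

/-- the point `(t, y, z)` with coordinates in the field `F` lies on
`V_k : y_i² - a_i z_i² = c_i ∏_{j ∈ E_i} (f_j(t) + k_j)`, with all the `f_j(t) + k_j ≠ 0` -/
def OnV {r s : ℕ} (f : Fin s → ℤ[X]) (a c : Fin r → ℤ) (E : Fin r → Finset (Fin s)) (k : Fin s → ℤ) {F : Type} [Field F]
    (t : F) (y z : Fin r → F) : Prop :=
  (∀ j, aeval t (f j) + (k j : F) ≠ 0) ∧ ∀ i, y i ^ 2 - (a i : F) * z i ^ 2 = (c i : F) * ∏ j ∈ E i, (aeval t (f j) + (k j : F))

/-- given points: for `p` in `T` the point `(t, y, z)` lies on `V_k`, its coordinates have absolute value at most `p ^ N` and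
`|f_j(t) + k_j| ≥ p ^ (-N)`; and `(tr, yr, zr)` is a real point of `V_k` with `|tr| ≤ B X`, `|f_j(tr) + k_j| ≥ X ^ deg f_j / B`
and `yr_i², zr_i² ≤ B X ^ (∑_{j ∈ E_i} deg f_j)` -/
def Given {r s : ℕ} (f : Fin s → ℤ[X]) (a c : Fin r → ℤ) (E : Fin r → Finset (Fin s)) (T : Finset Nat.Primes) (N B X : ℕ)
    (k : Fin s → ℤ) (t : (p : Nat.Primes) → ℚ_[(p : ℕ)]) (y z : (p : Nat.Primes) → Fin r → ℚ_[(p : ℕ)]) (tr : ℝ)
    (yr zr : Fin r → ℝ) : Prop :=
  (∀ p ∈ T, OnV f a c E k (t p) (y p) (z p) ∧ ‖t p‖ ≤ ((p : ℕ) : ℝ) ^ N ∧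
    (∀ i, ‖y p i‖ ≤ ((p : ℕ) : ℝ) ^ N ∧ ‖z p i‖ ≤ ((p : ℕ) : ℝ) ^ N) ∧
    ∀ j, (((p : ℕ) : ℝ) ^ N)⁻¹ ≤ ‖aeval (t p) (f j) + (k j : ℚ_[(p : ℕ)])‖) ∧
  OnV f a c E k tr yr zr ∧ |tr| ≤ B * X ∧ (∀ j, (X : ℝ) ^ (f j).natDegree ≤ B * |aeval tr (f j) + (k j : ℝ)|) ∧
  ∀ i, yr i ^ 2 ≤ B * (X : ℝ) ^ (∑ j ∈ E i, (f j).natDegree) ∧ zr i ^ 2 ≤ B * (X : ℝ) ^ (∑ j ∈ E i, (f j).natDegree)

/-- there is a rational point `(q, Y, Z)` of `V_k` whose coordinates are at distance at most `p ^ (-N)` from those of the given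
`p`-adic point, for all `p` in `T`, and with `|q - tr| ≤ X / B` and
`(Y_i - yr_i)², (Z_i - zr_i)² ≤ X ^ (∑_{j ∈ E_i} deg f_j) / B` -/
def Approximated {r s : ℕ} (f : Fin s → ℤ[X]) (a c : Fin r → ℤ) (E : Fin r → Finset (Fin s)) (T : Finset Nat.Primes)
    (N B X : ℕ) (k : Fin s → ℤ) (t : (p : Nat.Primes) → ℚ_[(p : ℕ)]) (y z : (p : Nat.Primes) → Fin r → ℚ_[(p : ℕ)]) (tr : ℝ)
    (yr zr : Fin r → ℝ) : Prop :=
  ∃ (q : ℚ) (Y Z : Fin r → ℚ), OnV f a c E k q Y Z ∧
    (∀ p ∈ T, ‖(q : ℚ_[(p : ℕ)]) - t p‖ ≤ (((p : ℕ) : ℝ) ^ N)⁻¹ ∧ ∀ i, ‖(Y i : ℚ_[(p : ℕ)]) - y p i‖ ≤ (((p : ℕ) : ℝ) ^ N)⁻¹ ∧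
      ‖(Z i : ℚ_[(p : ℕ)]) - z p i‖ ≤ (((p : ℕ) : ℝ) ^ N)⁻¹) ∧
    B * |(q : ℝ) - tr| ≤ X ∧
    ∀ i, B * ((Y i : ℝ) - yr i) ^ 2 ≤ (X : ℝ) ^ (∑ j ∈ E i, (f j).natDegree) ∧
      B * ((Z i : ℝ) - zr i) ^ 2 ≤ (X : ℝ) ^ (∑ j ∈ E i, (f j).natDegree)

open Classical in
theorem result {r s : ℕ} (f : Fin s → ℤ[X]) (hf : ∀ j, 1 ≤ (f j).natDegree) (a c : Fin r → ℤ)
    (ha : ∀ S : Finset (Fin r), S.Nonempty → ¬ IsSquare (∏ i ∈ S, a i)) (hc : ∀ i, c i ≠ 0)
    (E : Fin r → Finset (Fin s)) (hE : ∀ i, (E i).Nonempty) (T : Finset Nat.Primes)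
    (hT : ∀ p : Nat.Primes, ((p : ℕ) = 2 ∨ (p : ℕ) ≤ ∑ j, (f j).natDegree ∨ (∃ j, ((p : ℕ) : ℤ) ∣ (f j).leadingCoeff) ∨
      ∃ i, ((p : ℕ) : ℤ) ∣ a i * c i) → p ∈ T) (N B : ℕ) (hB : 1 ≤ B) :
    Tendsto (fun X : ℕ => (#((box f B X).filter (fun k => ¬ ∀ (t : (p : Nat.Primes) → ℚ_[(p : ℕ)])
      (y z : (p : Nat.Primes) → Fin r → ℚ_[(p : ℕ)]) (tr : ℝ) (yr zr : Fin r → ℝ), Given f a c E T N B X k t y z tr yr zr →
        Approximated f a c E T N B X k t y z tr yr zr)) : ℝ) / #(box f B X)) atTop (𝓝 0) := by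
  have h := Pool.Agent.Y714.RC.wam_density f hf a c ha hc E hE T hT N B hB
  refine h.congr fun X => ?_
  congr 2
  apply congrArg card
  apply filter_congr
  intro k _
  apply not_congr
  constructor
  · intro hW t y z tr yr zr hG
    exact hW t y z tr yr zr hG.1 hG.2.1 hG.2.2.1 hG.2.2.2.1 hG.2.2.2.2
  · intro hA t y z tr yr zr h1 h2 h3 h4 h5
    exact hA t y z tr yr zr ⟨h1, h2, h3, h4, h5⟩

end Pool.Agent.Results.MP_83e36b_nt.SeveralShifts
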